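import Pool.Agent.helper62.RP.Spec

/-! # MP_07c750, project rp, row ASY -/

set_option autoImplicit false

open Polynomial Filter
open Pool.Agent.QU

namespace Pool.Agent.RP

theorem ASY_gl_eval (L : ℕ) (x : ℝ) :
    (gl L).eval x = ∏ j ∈ Finset.range L, (1 - (j : ℝ) * x) ^ 2 := by
  unfold gl
  rw [Polynomial.eval_prod]
  apply Finset.prod_congr rfl
  intro j _
  simp

theorem ASY_gl_bds (L N : ℕ) (hL : 1 ≤ L) (hN : L ≤ N) :
    0 ≤ (gl L).eval (1 / (N : ℝ)) ∧ (gl L).eval (1 / (N : ℝ)) ≤ 1 ∧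
      1 - 2 * (L : ℝ) ^ 2 / N ≤ (gl L).eval (1 / (N : ℝ)) := by
  have hNpos : (0 : ℝ) < N := by exact_mod_cast (by omega : 0 < N)
  have hLN : (L : ℝ) ≤ N := by exact_mod_cast hN
  have hj : ∀ j ∈ Finset.range L, 0 ≤ (j : ℝ) * (1 / N) ∧ (j : ℝ) * (1 / N) ≤ 1 ∧
      (j : ℝ) * (1 / N) ≤ L / N := by
    intro j hj
    rw [Finset.mem_range] at hj
    have h1 : (j : ℝ) ≤ L := by exact_mod_cast hj.le
    refine ⟨by positivity, ?_, ?_⟩
    · rw [mul_one_div, div_le_one hNpos]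
      linarith
    · rw [mul_one_div]
      exact div_le_div_of_nonneg_right h1 hNpos.le
  rw [ASY_gl_eval]
  refine ⟨?_, ?_, ?_⟩
  · exact Finset.prod_nonneg fun j _ => sq_nonneg _
  · apply Finset.prod_le_one
    · intro j _
      exact sq_nonneg _
    · intro j h
      obtain ⟨h1, h2, -⟩ := hj j h
      nlinarith
  · by_cases hbig : 2 * (L : ℝ) / N ≤ 1
    · have h1 : (1 - 2 * (L : ℝ) / N) ^ L ≤ ∏ j ∈ Finset.range L, (1 - (j : ℝ) * (1 / N)) ^ 2 := by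
        have h2 : (1 - 2 * (L : ℝ) / N) ^ L = ∏ _j ∈ Finset.range L, (1 - 2 * (L : ℝ) / N) := by
          rw [Finset.prod_const, Finset.card_range]
        rw [h2]
        apply Finset.prod_le_prod
        · intro j _
          linarith
        · intro j h
          obtain ⟨h1, h2, h3⟩ := hj j h
          have h4 : 2 * (L : ℝ) / N = 2 * (L / N) := by ring
          rw [h4]
          nlinarith
      have h3 := one_add_mul_le_pow (a := -(2 * (L : ℝ) / N)) (by linarith) L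
      have h4 : 1 + (L : ℝ) * -(2 * (L : ℝ) / N) = 1 - 2 * (L : ℝ) ^ 2 / N := by ring
      rw [h4, ← sub_eq_add_neg] at h3
      exact h3.trans h1
    · have h1 : 1 - 2 * (L : ℝ) ^ 2 / N ≤ 0 := by
        push Not at hbig
        have hL1 : (1 : ℝ) ≤ L := by exact_mod_cast hL
        have h2 : 2 * (L : ℝ) ^ 2 / N = L * (2 * (L : ℝ) / N) := by ring
        rw [h2]
        nlinarith
      exact h1.trans (Finset.prod_nonneg fun j _ => sq_nonneg _)

theorem ASY (h1 : DIS_stmt) (h2 : POL_stmt) : ASY_stmt := by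
  intro b L H e hL hb hH he1 he2 N hN
  obtain ⟨r, hr1, hr2, hr3, hr4⟩ := h2 b L hL hb
  have he : 0 ≤ e := (abs_nonneg _).trans he1
  have hLr : (1 : ℝ) ≤ L := by exact_mod_cast hL
  have hML : L ≤ 8 * (2 * L + 1) ^ 2 := by nlinarith
  have hrb : ∀ n : ℕ, 8 * (2 * L + 1) ^ 2 ≤ n → |r.eval (1 / (n : ℝ))| ≤ H := by
    intro n hn
    have hLn : L ≤ n := hML.trans hn
    have hnpos : (0 : ℝ) < n := by exact_mod_cast (by omega : 0 < n)
    obtain ⟨g1, g2, -⟩ := ASY_gl_bds L n hL hLn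
    rw [hr2 n hLn, abs_mul, abs_of_nonneg g1, abs_div, abs_of_pos hnpos]
    have h3 : |TT n b| / n ≤ H := by
      rw [div_le_iff₀ hnpos]
      exact hH n hLn
    calc (gl L).eval (1 / (n : ℝ)) * (|TT n b| / n) ≤ 1 * (|TT n b| / n) :=
          mul_le_mul_of_nonneg_right g2 (by positivity)
      _ ≤ H := by rw [one_mul]; exact h3
  have hd := h1 r (2 * L + 1) (8 * (2 * L + 1) ^ 2) H (by omega) hr1 le_rfl hrb N hN
  have hLN : L ≤ N := hML.trans hN
  have hNpos : (0 : ℝ) < N := by exact_mod_cast (by omega : 0 < N)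
  obtain ⟨g1, g2, g3⟩ := ASY_gl_bds L N hL hLN
  have hNr : 8 * (2 * (L : ℝ) + 1) ^ 2 ≤ N := by exact_mod_cast hN
  have g4 : 1 / 2 ≤ (gl L).eval (1 / (N : ℝ)) := by
    have h3 : 2 * (L : ℝ) ^ 2 / N ≤ 1 / 2 := by
      rw [div_le_iff₀ hNpos]
      nlinarith
    linarith
  -- bound for `r (1/N)`
  have hr0 : |r.eval 0| ≤ e := by rw [hr3]; exact he1
  have hrd : |r.derivative.eval 0| ≤ ((L : ℝ) ^ 2 + 2) * e := by
    rw [hr4]
    refine (abs_add_le _ _).trans ?_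
    rw [abs_mul, abs_neg, abs_of_nonneg (by nlinarith : (0 : ℝ) ≤ 1 + (L : ℝ) * (L - 1))]
    have h3 : (1 + (L : ℝ) * (L - 1)) * |(b.coeff 1).re| ≤ (1 + (L : ℝ) * (L - 1)) * e :=
      mul_le_mul_of_nonneg_left he1 (by nlinarith)
    nlinarith
  have hrN : |r.eval (1 / (N : ℝ))| ≤ e + ((L : ℝ) ^ 2 + 2) * e / N +
      1024 * (2 * (L : ℝ) + 1) ^ 8 * H / N ^ 2 := by
    have h3 : r.eval (1 / (N : ℝ)) = (r.eval (1 / (N : ℝ)) - r.eval 0 - r.derivative.eval 0 / N) +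
        (r.eval 0 + r.derivative.eval 0 / N) := by ring
    have h4 : |r.eval 0 + r.derivative.eval 0 / N| ≤ e + ((L : ℝ) ^ 2 + 2) * e / N := by
      refine (abs_add_le _ _).trans ?_
      rw [abs_div, abs_of_pos hNpos]
      exact add_le_add hr0 (div_le_div_of_nonneg_right hrd hNpos.le)
    have h5 : 16 * (((2 * L + 1 : ℕ) : ℝ)) ^ 4 * (((8 * (2 * L + 1) ^ 2 : ℕ) : ℝ)) ^ 2 * H /
        (N : ℝ) ^ 2 = 1024 * (2 * (L : ℝ) + 1) ^ 8 * H / N ^ 2 := by
      push_cast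
      ring
    rw [h5] at hd
    rw [h3]
    refine (abs_add_le _ _).trans ?_
    linarith
  have hTT : (gl L).eval (1 / (N : ℝ)) * |TT N b| = N * |r.eval (1 / (N : ℝ))| := by
    rw [hr2 N hLN, abs_mul, abs_of_nonneg g1, abs_div, abs_of_pos hNpos]
    field_simp
  have h3 : 1 / 2 * |TT N b| ≤ N * |r.eval (1 / (N : ℝ))| := by
    rw [← hTT]
    exact mul_le_mul_of_nonneg_right g4 (abs_nonneg _)
  have h4 : N * |r.eval (1 / (N : ℝ))| ≤ N * (e + ((L : ℝ) ^ 2 + 2) * e / N +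
      1024 * (2 * (L : ℝ) + 1) ^ 8 * H / N ^ 2) := mul_le_mul_of_nonneg_left hrN hNpos.le
  have h5 : (N : ℝ) * (e + ((L : ℝ) ^ 2 + 2) * e / N +
      1024 * (2 * (L : ℝ) + 1) ^ 8 * H / N ^ 2) =
      N * e + ((L : ℝ) ^ 2 + 2) * e + 1024 * (2 * (L : ℝ) + 1) ^ 8 * H / N := by
    field_simp
  rw [h5] at h4
  linarith

end Pool.Agent.RP
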