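import Pool.Agent.helper62.RP.Spec

/-! # MP_07c750, project rp, row DIS -/

set_option autoImplicit false

open Polynomial Filter
open Pool.Agent.QU

namespace Pool.Agent.RP

theorem DIS_mvt (p : ℝ[X]) (a B : ℝ) (hb : ∀ x, 0 ≤ x → x ≤ a → |p.derivative.eval x| ≤ B)
    (x y : ℝ) (hx0 : 0 ≤ x) (hxa : x ≤ a) (hy0 : 0 ≤ y) (hya : y ≤ a) :
    |p.eval y - p.eval x| ≤ B * |y - x| := by
  have h := Convex.norm_image_sub_le_of_norm_deriv_le (f := fun z => p.eval z) (C := B)
    (s := Set.Icc 0 a) (x := x) (y := y) (fun z _ => p.differentiable.differentiableAt)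
    (fun z hz => by
      rw [Polynomial.deriv]
      exact hb z hz.1 hz.2) (convex_Icc 0 a) ⟨hx0, hxa⟩ ⟨hy0, hya⟩
  exact h

theorem DIS_taylor (p : ℝ[X]) (a B : ℝ)
    (hb : ∀ x, 0 ≤ x → x ≤ a → |p.derivative.derivative.eval x| ≤ B)
    (x : ℝ) (hx0 : 0 ≤ x) (hxa : x ≤ a) :
    |p.eval x - p.eval 0 - p.derivative.eval 0 * x| ≤ B * x ^ 2 / 2 := by
  have h1 : ∀ y, 0 ≤ y → y ≤ a → |p.derivative.eval y - p.derivative.eval 0| ≤ B * y := by
    intro y hy0 hya
    have := DIS_mvt p.derivative a B hb 0 y le_rfl (hy0.trans hya) hy0 hya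
    rwa [sub_zero, abs_of_nonneg hy0] at this
  have h2 := image_norm_le_of_norm_deriv_right_le_deriv_boundary
    (f := fun z => p.eval z - p.eval 0 - p.derivative.eval 0 * z)
    (f' := fun z => p.derivative.eval z - p.derivative.eval 0) (a := 0) (b := a)
    (B := fun z => B * z ^ 2 / 2) (B' := fun z => B * z) ?_ ?_ ?_ ?_ ?_
  · exact h2 ⟨hx0, hxa⟩
  · apply Continuous.continuousOn
    fun_prop
  · intro z _
    apply HasDerivAt.hasDerivWithinAt
    have h3 : HasDerivAt (fun z : ℝ => p.derivative.eval 0 * z) (p.derivative.eval 0) z := by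
      simpa using (hasDerivAt_id z).const_mul (p.derivative.eval 0)
    exact ((p.hasDerivAt z).sub_const _).sub h3
  · simp
  · intro z
    have h3 := ((hasDerivAt_pow 2 z).const_mul B).div_const 2
    refine h3.congr_deriv ?_
    norm_num
    ring
  · intro z hz
    exact h1 z hz.1 hz.2.le

theorem DIS (h1 : MKV_stmt) : DIS_stmt := by
  intro p D M H hD hp hM hb n hn
  have hM8 : 8 ≤ M := by nlinarith
  have hMpos : (0 : ℝ) < M := by exact_mod_cast (by omega : 0 < M)
  have hDpos : (1 : ℝ) ≤ D := by exact_mod_cast hD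
  have hMD : 8 * (D : ℝ) ^ 2 ≤ M := by exact_mod_cast hM
  have hH : 0 ≤ H := (abs_nonneg _).trans (hb M le_rfl)
  have ha : (0 : ℝ) < 1 / M := by positivity
  -- value at `0`
  have h0 : |p.eval 0| ≤ H := by
    have t1 : Tendsto (fun n : ℕ => |p.eval (1 / (n : ℝ))|) atTop (nhds |p.eval 0|) := by
      have t2 : Tendsto (fun n : ℕ => p.eval (1 / (n : ℝ))) atTop (nhds (p.eval 0)) :=
        (p.continuous.tendsto 0).comp tendsto_one_div_atTop_nhds_zero_nat
      exact t2.abs
    exact le_of_tendsto t1 (Filter.eventually_atTop.mpr ⟨M, fun n hn => hb n hn⟩)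
  -- the maximum
  obtain ⟨x, hx, hmax⟩ := (isCompact_Icc (a := (0 : ℝ)) (b := 1 / M)).exists_isMaxOn
    ⟨0, le_rfl, ha.le⟩ (f := fun z => |p.eval z|) (by apply Continuous.continuousOn; fun_prop)
  have hmax' : ∀ z, 0 ≤ z → z ≤ 1 / (M : ℝ) → |p.eval z| ≤ |p.eval x| := by
    intro z hz0 hz1
    exact hmax ⟨hz0, hz1⟩
  have hS : |p.eval x| ≤ 2 * H := by
    rcases eq_or_lt_of_le hx.1 with h | h
    · rw [← h]
      linarith
    · have hd := h1 p D (1 / M) |p.eval x| hp ha hmax'
      set k : ℕ := ⌊1 / x⌋₊ with hk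
      have hx1 : (M : ℝ) ≤ 1 / x := by
        rw [le_div_iff₀ h]
        have := hx.2
        rw [le_div_iff₀ hMpos] at this
        linarith
      have hkM : M ≤ k := Nat.le_floor hx1
      have hkpos : (0 : ℝ) < k := by exact_mod_cast (by omega : 0 < k)
      have hkMr : (M : ℝ) ≤ k := by exact_mod_cast hkM
      have h2 : (k : ℝ) ≤ 1 / x := Nat.floor_le (by positivity)
      have h3 : 1 / x < k + 1 := Nat.lt_floor_add_one _
      have h4 : x ≤ 1 / k := by
        rw [le_div_iff₀ hkpos]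
        rw [le_div_iff₀ h] at h2
        linarith
      have h5 : 1 / ((k : ℝ) + 1) < x := by
        rw [div_lt_iff₀ (by positivity)]
        rw [div_lt_iff₀ h] at h3
        linarith
      have h6 : 1 / (k : ℝ) ≤ 1 / M := one_div_le_one_div_of_le hMpos hkMr
      have h7 : |x - 1 / k| ≤ 1 / (M : ℝ) ^ 2 := by
        rw [abs_sub_comm, abs_of_nonneg (by linarith)]
        have h8 : 1 / (k : ℝ) - 1 / (k + 1) = 1 / (k * (k + 1)) := by
          field_simp
          ring
        have h9 : 1 / ((k : ℝ) * (k + 1)) ≤ 1 / (M : ℝ) ^ 2 := by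
          apply one_div_le_one_div_of_le (by positivity)
          nlinarith
        linarith
      have h8 := DIS_mvt p (1 / M) (4 * (D : ℝ) ^ 2 / (1 / M) * |p.eval x|) hd (1 / k) x
        (by positivity) h6 hx.1 hx.2
      have h9 := hb k hkM
      have h10 : 4 * (D : ℝ) ^ 2 / (1 / M) * |p.eval x| * |x - 1 / k| ≤ |p.eval x| / 2 := by
        have hc : 0 ≤ 4 * (D : ℝ) ^ 2 / (1 / M) * |p.eval x| := by positivity
        calc 4 * (D : ℝ) ^ 2 / (1 / M) * |p.eval x| * |x - 1 / k|
            ≤ 4 * (D : ℝ) ^ 2 / (1 / M) * |p.eval x| * (1 / (M : ℝ) ^ 2) :=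
              mul_le_mul_of_nonneg_left h7 hc
          _ = (4 * (D : ℝ) ^ 2 / M) * |p.eval x| := by
              field_simp
          _ ≤ (1 / 2) * |p.eval x| := by
              apply mul_le_mul_of_nonneg_right _ (abs_nonneg _)
              rw [div_le_iff₀ hMpos]
              linarith
          _ = |p.eval x| / 2 := by ring
      have h11 : |p.eval x| ≤ |p.eval x - p.eval (1 / (k : ℝ))| + |p.eval (1 / (k : ℝ))| := by
        have := abs_add_le (p.eval x - p.eval (1 / (k : ℝ))) (p.eval (1 / (k : ℝ)))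
        rwa [sub_add_cancel] at this
      linarith
  have hb1 : ∀ z, 0 ≤ z → z ≤ 1 / (M : ℝ) → |p.eval z| ≤ 2 * H := fun z hz0 hz1 =>
    (hmax' z hz0 hz1).trans hS
  have hb2 := h1 p D (1 / M) (2 * H) hp ha hb1
  have hb3 := h1 p.derivative D (1 / M) _ (by
    have := Polynomial.natDegree_derivative_le p
    omega) ha hb2
  have hnr : (M : ℝ) ≤ n := by exact_mod_cast hn
  have hnpos : (0 : ℝ) < n := lt_of_lt_of_le hMpos hnr
  have h2 := DIS_taylor p (1 / M) _ hb3 (1 / n) (by positivity)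
    (one_div_le_one_div_of_le hMpos hnr)
  have h3 : p.derivative.eval 0 * (1 / (n : ℝ)) = p.derivative.eval 0 / n := by ring
  rw [h3] at h2
  refine h2.trans (le_of_eq ?_)
  field_simp
  ring

end Pool.Agent.RP
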