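import Pool.Agent.helper62.RP.Spec

/-! # MP_07c750, project rp, row MKV (Markov inequality up to a constant) -/

set_option autoImplicit false

open Polynomial Filter
open Pool.Agent.QU

namespace Pool.Agent.RP

theorem MKV_key (Q : ℝ[X]) (D : ℕ) (K : ℝ) (hK : 0 < K) (hQ : Q.natDegree ≤ D)
    (hb : ∀ t ∈ Set.Icc (-1 : ℝ) 1, |Q.eval t| ≤ K) : Q.derivative.eval 1 ≤ (D : ℝ) ^ 2 * K := by
  have hdeg : (C K⁻¹ * Q).degree ≤ (D : ℕ) := by
    apply Polynomial.degree_le_of_natDegree_le
    exact (Polynomial.natDegree_C_mul_le _ _).trans hQ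
  have hbd : ∀ t ∈ Set.Icc (-1 : ℝ) 1, |(C K⁻¹ * Q).eval t| ≤ 1 := by
    intro t ht
    rw [Polynomial.eval_mul, Polynomial.eval_C, abs_mul, abs_of_pos (inv_pos.mpr hK)]
    rw [inv_mul_le_iff₀ hK, mul_one]
    exact hb t ht
  have h1 := Polynomial.Chebyshev.eval_iterate_derivative_le_of_forall_abs_le_one (n := D)
    (P := C K⁻¹ * Q) (k := 1) (x := 1) le_rfl hdeg hbd
  have h2 := Polynomial.Chebyshev.iterate_derivative_T_eval_one (R := ℝ) (D : ℤ) 1
  simp only [Finset.prod_range_one, Function.iterate_one] at h1 h2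
  norm_num at h2
  rw [h2] at h1
  rw [Polynomial.derivative_C_mul, Polynomial.eval_mul, Polynomial.eval_C,
    inv_mul_le_iff₀ hK] at h1
  linarith

theorem MKV_one (P : ℝ[X]) (D : ℕ) (H : ℝ) (hP : P.natDegree ≤ D)
    (hb : ∀ t ∈ Set.Icc (-1 : ℝ) 1, |P.eval t| ≤ H) : |P.derivative.eval 1| ≤ (D : ℝ) ^ 2 * H := by
  have hH : 0 ≤ H := (abs_nonneg _).trans (hb 0 (by constructor <;> norm_num))
  have h1 : ∀ ε : ℝ, 0 < ε → |P.derivative.eval 1| ≤ (D : ℝ) ^ 2 * H + ε := by
    intro ε hε
    have hδ : 0 < ε / ((D : ℝ) ^ 2 + 1) := by positivity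
    have hK : 0 < H + ε / ((D : ℝ) ^ 2 + 1) := by linarith
    have a1 := MKV_key P D _ hK hP (fun t ht => (hb t ht).trans (by linarith))
    have a2 := MKV_key (-P) D _ hK (by rw [Polynomial.natDegree_neg]; exact hP)
      (fun t ht => by rw [Polynomial.eval_neg, abs_neg]; exact (hb t ht).trans (by linarith))
    rw [Polynomial.derivative_neg, Polynomial.eval_neg] at a2
    have a3 : (D : ℝ) ^ 2 * (H + ε / ((D : ℝ) ^ 2 + 1)) ≤ (D : ℝ) ^ 2 * H + ε := by
      rw [mul_add]
      have : (D : ℝ) ^ 2 * (ε / ((D : ℝ) ^ 2 + 1)) ≤ ε := by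
        rw [mul_div_assoc', div_le_iff₀ (by positivity)]
        nlinarith
      linarith
    rw [abs_le]
    constructor <;> linarith
  exact le_of_forall_pos_le_add h1

theorem MKV : MKV_stmt := by
  intro p D a H hp ha hb x hx0 hxa
  have hmain : ∀ s : ℝ, a / 4 ≤ |s| → (∀ t : ℝ, -1 ≤ t → t ≤ 1 → 0 ≤ x + s * (1 - t) ∧
      x + s * (1 - t) ≤ a) → |p.derivative.eval x| ≤ 4 * (D : ℝ) ^ 2 / a * H := by
    intro s hs hst
    set P : ℝ[X] := p.comp (C x + C s * (1 - X)) with hP
    have hdeg : P.natDegree ≤ D := by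
      rw [hP]
      refine Polynomial.natDegree_comp_le.trans ?_
      have h1 : (C x + C s * (1 - X) : ℝ[X]).natDegree ≤ 1 := by
        have : (C x + C s * (1 - X) : ℝ[X]) = C (-s) * X + C (x + s) := by
          simp only [C_neg, C_add]
          ring
        rw [this]
        exact Polynomial.natDegree_linear_le
      calc p.natDegree * (C x + C s * (1 - X) : ℝ[X]).natDegree ≤ p.natDegree * 1 :=
            Nat.mul_le_mul_left _ h1
        _ ≤ D := by rw [mul_one]; exact hp
    have hbd : ∀ t ∈ Set.Icc (-1 : ℝ) 1, |P.eval t| ≤ H := by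
      intro t ht
      have h1 : P.eval t = p.eval (x + s * (1 - t)) := by
        rw [hP]
        simp [Polynomial.eval_comp]
      rw [h1]
      obtain ⟨h2, h3⟩ := hst t ht.1 ht.2
      exact hb _ h2 h3
    have h1 := MKV_one P D H hdeg hbd
    have h2 : P.derivative.eval 1 = -s * p.derivative.eval x := by
      rw [hP, Polynomial.derivative_comp]
      simp [Polynomial.eval_comp]
    rw [h2, abs_mul, abs_neg] at h1
    have h3 : a / 4 * |p.derivative.eval x| ≤ (D : ℝ) ^ 2 * H :=
      (mul_le_mul_of_nonneg_right hs (abs_nonneg _)).trans h1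
    rw [div_mul_eq_mul_div, le_div_iff₀ ha]
    linarith
  rcases le_total (a / 2) x with h | h
  · apply hmain (-(x / 2))
    · rw [abs_neg, abs_of_nonneg (by linarith)]
      linarith
    · intro t h1 h2
      constructor <;> nlinarith
  · apply hmain ((a - x) / 2)
    · rw [abs_of_nonneg (by linarith)]
      linarith
    · intro t h1 h2
      constructor <;> nlinarith

end Pool.Agent.RP
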