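import Pool.Agent.helper62.RP.Spec

/-! # MP_07c750, project rp, row PSM (power sums) -/

set_option autoImplicit false

open Polynomial Filter
open Pool.Agent.QU

namespace Pool.Agent.RP

theorem PSM_cs (f h : F2 → ℂ) (c d : ℝ) (hc : 0 ≤ c) (hd : 0 ≤ d) (hf : SqB f c) (hh : SqB h d)
    (φ ψ : F2 → F2) (hφ : Function.Injective φ) (hψ : Function.Injective ψ) (A : Finset F2) :
    ∑ x ∈ A, ‖f (φ x)‖ * ‖h (ψ x)‖ ≤ c * d := by
  classical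
  have h1 : ∑ x ∈ A, ‖f (φ x)‖ ^ 2 ≤ c ^ 2 := by
    have := hf (A.image φ)
    rwa [Finset.sum_image (fun x _ y _ hxy => hφ hxy)] at this
  have h2 : ∑ x ∈ A, ‖h (ψ x)‖ ^ 2 ≤ d ^ 2 := by
    have := hh (A.image ψ)
    rwa [Finset.sum_image (fun x _ y _ hxy => hψ hxy)] at this
  have h3 := Finset.sum_mul_sq_le_sq_mul_sq A (fun x => ‖f (φ x)‖) (fun x => ‖h (ψ x)‖)
  have h4 : (∑ x ∈ A, ‖f (φ x)‖ * ‖h (ψ x)‖) ^ 2 ≤ (c * d) ^ 2 := by
    refine h3.trans ?_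
    rw [mul_pow]
    exact mul_le_mul h1 h2 (Finset.sum_nonneg fun _ _ => by positivity) (by positivity)
  exact abs_le_of_sq_le_sq' h4 (by positivity) |>.2

theorem PSM_sw {α β : Type} (X : Finset α) (I : Finset β) (f : α → β → ℝ) (n C : ℝ)
    (hn : (I.card : ℝ) ≤ n) (hC : 0 ≤ C) (h : ∀ i ∈ I, ∑ x ∈ X, f x i ≤ C) :
    ∑ x ∈ X, ∑ i ∈ I, f x i ≤ n * C := by
  rw [Finset.sum_comm]
  calc ∑ i ∈ I, ∑ x ∈ X, f x i ≤ ∑ _i ∈ I, C := Finset.sum_le_sum h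
    _ = (I.card : ℝ) * C := by rw [Finset.sum_const, nsmul_eq_mul]
    _ ≤ n * C := mul_le_mul_of_nonneg_right hn hC

theorem PSM (h1 : RNB_stmt) (h2 : OPB_stmt) (h3 : CYC_stmt) (h4 : KBD_stmt) (h5 : PS1_stmt) :
    PSM_stmt := by
  classical
  intro a q ha k p hk S hS
  have hρ : 0 ≤ regNorm a := (h1 F2 a a).1
  set ρ := regNorm a with hρdef
  have hch : ∀ v : F2, ∃ x : F2 × F2, v ≠ 1 → (v = x.1 * x.2 * x.1⁻¹ ∧
      Sep x.1⁻¹ (x.2 ^ k * x.1⁻¹) ∧ Sep x.2⁻¹ (x.2 ^ (k - 1) * x.1⁻¹) ∧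
      Sep (x.2 ^ (k - 1))⁻¹ x.1⁻¹) := by
    intro v
    by_cases hv : v = 1
    · exact ⟨(1, 1), fun h => absurd hv h⟩
    · obtain ⟨g, u, hgu, -, hsep⟩ := h3 v hv
      exact ⟨(g, u), fun _ => ⟨hgu, hsep k hk⟩⟩
  choose F hF using hch
  set T : F2 × F2 → ℝ := fun x =>
    ∑ i ∈ Finset.range (p + 1), ∑ s₀ ∈ ball q, ∑ j ∈ Finset.range (p - i + 1), ∑ s₁ ∈ ball q,
      ∑ l ∈ Finset.range (p - i - j + 1), ∑ s₂ ∈ ball q,
        ‖kil a q s₀ i x.1⁻¹‖ * (‖kil a q s₁ j (x.2⁻¹ * s₀)‖ *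
          (‖kil a q s₂ l ((x.2 ^ (k - 1))⁻¹ * s₁)‖ *
            ‖(a ^ (p - i - j - l)).coeff (s₂⁻¹ * x.1⁻¹)‖)) with hT
  have hT0 : ∀ x, 0 ≤ T x := by
    intro x
    rw [hT]
    positivity
  have hS1 : ∀ v ∈ S, v ≠ 1 := fun v hv h => hS (h ▸ hv)
  have hstep : ∀ v ∈ S, ‖(a ^ p).coeff (v ^ k)‖ ≤ T (F v) := by
    intro v hv
    obtain ⟨e1, e2, e3, e4⟩ := hF v (hS1 v hv)
    have := h5 a q ha (F v).1 (F v).2 k p hk e2 e3 e4
    rw [← e1] at this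
    exact this
  have hinj : Set.InjOn F (S : Set F2) := by
    intro v hv w hw hvw
    have e1 := (hF v (hS1 v hv)).1
    have e2 := (hF w (hS1 w hw)).1
    rw [e1, e2, hvw]
  set A : Finset F2 := S.image (fun v => (F v).1) with hA
  set B : Finset F2 := S.image (fun v => (F v).2) with hB
  have hsub : S.image F ⊆ A ×ˢ B := by
    intro x hx
    rw [Finset.mem_image] at hx
    obtain ⟨v, hv, rfl⟩ := hx
    rw [Finset.mem_product]
    exact ⟨Finset.mem_image_of_mem _ hv, Finset.mem_image_of_mem _ hv⟩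
  have hpowinj : Function.Injective (fun u : F2 => u ^ (k - 1)) :=
    pow_left_injective (by omega)
  have hp1 : (0 : ℝ) ≤ (p : ℝ) + 1 := by positivity
  have hmain : ∑ x ∈ A ×ˢ B, T x ≤ ((p : ℝ) + 1) * (((ball q).card : ℝ) * (((p : ℝ) + 1) *
      (((ball q).card : ℝ) * (((p : ℝ) + 1) * (((ball q).card : ℝ) * ρ ^ p))))) := by
    apply PSM_sw _ _ _ _ _ (by rw [Finset.card_range]; push_cast; exact le_rfl) (by positivity)
    intro i hi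
    apply PSM_sw _ _ _ _ _ le_rfl (by positivity)
    intro s₀ _
    apply PSM_sw _ _ _ _ _ (by
      rw [Finset.card_range]
      have : ((p - i + 1 : ℕ) : ℝ) ≤ ((p + 1 : ℕ) : ℝ) := by
        exact_mod_cast (by omega : p - i + 1 ≤ p + 1)
      push_cast at this ⊢
      exact this) (by positivity)
    intro j hj
    apply PSM_sw _ _ _ _ _ le_rfl (by positivity)
    intro s₁ _
    apply PSM_sw _ _ _ _ _ (by
      rw [Finset.card_range]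
      have : ((p - i - j + 1 : ℕ) : ℝ) ≤ ((p + 1 : ℕ) : ℝ) := by
        exact_mod_cast (by omega : p - i - j + 1 ≤ p + 1)
      push_cast at this ⊢
      exact this) (by positivity)
    intro l hl
    apply PSM_sw _ _ _ _ _ le_rfl (by positivity)
    intro s₂ _
    rw [Finset.mem_range] at hi hj hl
    have e1 : ∑ x ∈ A ×ˢ B, ‖kil a q s₀ i x.1⁻¹‖ * (‖kil a q s₁ j (x.2⁻¹ * s₀)‖ *
          (‖kil a q s₂ l ((x.2 ^ (k - 1))⁻¹ * s₁)‖ *
            ‖(a ^ (p - i - j - l)).coeff (s₂⁻¹ * x.1⁻¹)‖)) =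
        (∑ g ∈ A, ‖kil a q s₀ i g⁻¹‖ * ‖(a ^ (p - i - j - l)).coeff (s₂⁻¹ * g⁻¹)‖) *
          ∑ u ∈ B, ‖kil a q s₁ j (u⁻¹ * s₀)‖ * ‖kil a q s₂ l ((u ^ (k - 1))⁻¹ * s₁)‖ := by
      rw [Finset.sum_product, Finset.sum_mul_sum]
      apply Finset.sum_congr rfl
      intro g _
      apply Finset.sum_congr rfl
      intro u _
      ring
    rw [e1]
    have e2 : ∑ g ∈ A, ‖kil a q s₀ i g⁻¹‖ * ‖(a ^ (p - i - j - l)).coeff (s₂⁻¹ * g⁻¹)‖ ≤
        ρ ^ i * ρ ^ (p - i - j - l) :=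
      PSM_cs (kil a q s₀ i) (fun x => (a ^ (p - i - j - l)).coeff x) _ _ (by positivity)
        (by positivity) (h4 a q s₀ i) ((h2 F2 a).2 _) (fun g => g⁻¹) (fun g => s₂⁻¹ * g⁻¹)
        inv_injective (fun x y hxy => inv_injective (mul_left_cancel hxy)) A
    have e3 : ∑ u ∈ B, ‖kil a q s₁ j (u⁻¹ * s₀)‖ * ‖kil a q s₂ l ((u ^ (k - 1))⁻¹ * s₁)‖ ≤
        ρ ^ j * ρ ^ l :=
      PSM_cs (kil a q s₁ j) (kil a q s₂ l) _ _ (by positivity)
        (by positivity) (h4 a q s₁ j) (h4 a q s₂ l) (fun u => u⁻¹ * s₀)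
        (fun u => (u ^ (k - 1))⁻¹ * s₁)
        (fun x y hxy => inv_injective (mul_right_cancel hxy))
        (fun x y hxy => hpowinj (inv_injective (mul_right_cancel hxy))) B
    calc _ ≤ (ρ ^ i * ρ ^ (p - i - j - l)) * (ρ ^ j * ρ ^ l) :=
          mul_le_mul e2 e3 (Finset.sum_nonneg fun _ _ => by positivity) (by positivity)
      _ = ρ ^ p := by
          rw [← pow_add, ← pow_add, ← pow_add]
          congr 1
          omega
  calc ∑ v ∈ S, ‖(a ^ p).coeff (v ^ k)‖ ≤ ∑ v ∈ S, T (F v) := Finset.sum_le_sum hstep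
    _ = ∑ x ∈ S.image F, T x := by rw [Finset.sum_image (fun x hx y hy hxy => hinj hx hy hxy)]
    _ ≤ ∑ x ∈ A ×ˢ B, T x :=
        Finset.sum_le_sum_of_subset_of_nonneg hsub (fun x _ _ => hT0 x)
    _ ≤ _ := hmain
    _ = ((p : ℝ) + 1) ^ 3 * ((ball q).card : ℝ) ^ 3 * ρ ^ p := by ring

end Pool.Agent.RP
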